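import Pool.Agent.QUD.StmtsU

/-!
Squad QUD (MP_5b0138_an), block U, row REG (helper82): the densities of the types B and H are
analytic, even and bounded, and the germs are their transforms.
-/

set_option autoImplicit false

namespace Pool.Agent.QUD.H82

open MeasureTheory Filter Topology Real Set Pool.Agent.AEU Pool.Agent.AEU.H12 Pool.Agent.XQ
  Pool.Agent.XQ.U Pool.Agent.QUD

/-- the four properties of a density and its germ -/
def Four (L : ℝ) (g G : ℝ → ℝ) : Prop :=
  AnalyticOnNhd ℝ g univ ∧ (∀ v, g (-v) = g v) ∧ (∃ B : ℝ, ∀ v, |g v| ≤ B) ∧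
    ∀ κ : ℝ, 0 < κ → G κ = 1 / π * ∫ v : ℝ, rexp (-(κ * L * cosh v)) * g v

lemma keyB (hB : RegBStmt) {L M m : ℝ} (hL : 0 < L) (hm0 : 0 < m) (hm : m < π / 2) (hM : M < π)
    (hMm : π < M + m) :
    Four L (fun v => Cs M m - KKf (π / M) (2 * v)) (germB (L / 2) M (π / 2 - m)) := by
  have hok : OkB (M, π / 2 - m) := by
    refine Or.inl ⟨?_, hM, ?_, ?_, ?_, ?_⟩
    · show π / 2 < M
      linarith
    · show 0 < π / 2 - m
      linarith
    · show π / 2 - m < M
      linarith
    · show π / 2 - m ≠ π / 2
      intro h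
      linarith
    · show M - (π / 2 - m) ≠ π / 2
      intro h
      linarith
  have h := hB L [(M, π / 2 - m)] [] [] [] hL (by simpa using hok) (by simp) (by simp) (by simp)
  have e : gBHE [(M, π / 2 - m)] [] [] [] = fun v => Cs M m - KKf (π / M) (2 * v) := by
    funext v
    simp only [gBHE, U.fB, List.map_cons, List.map_nil, List.sum_cons, List.sum_nil, add_zero,
      sub_zero]
    rfl
  rw [e] at h
  obtain ⟨h1, h2, h3, h4⟩ := h
  refine ⟨h1, h2, h3, fun κ hκ => ?_⟩
  have h5 := h4 κ hκ
  simp only [SumB, SumE, SumH, List.map_cons, List.map_nil, List.sum_cons, List.sum_nil, add_zero,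
    sub_zero] at h5
  exact h5

lemma keyH (hB : RegBStmt) {L M : ℝ} (hL : 0 < L) (hm : π / 2 < M) (hM : M < π) :
    Four L (fun v => 1 / 2 * Cs M (π / 2) - 1 / 2 * KKf (π / M) (2 * v))
      (fun κ => 1 / 2 * germB (L / 2) M 0 κ) := by
  have h := hB L [] [] [M] [] hL (by simp) (by simp) (by simpa using ⟨hm, hM⟩) (by simp)
  have e0 : Cs M (π / 2) = KKf (π / M) 0 := by
    unfold Cs Cf KKf
    rw [sub_self, mul_zero, mul_zero, Real.cos_zero, Real.cosh_zero]
  have e : gBHE [] [] [M] [] = fun v => -(1 / 2 * Cs M (π / 2) - 1 / 2 * KKf (π / M) (2 * v)) := by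
    funext v
    simp only [gBHE, fH, List.map_cons, List.map_nil, List.sum_cons, List.sum_nil, add_zero,
      zero_add, zero_sub]
    rw [e0]
    ring
  rw [e] at h
  obtain ⟨h1, h2, ⟨B, h3⟩, h4⟩ := h
  refine ⟨?_, ?_, ⟨B, ?_⟩, ?_⟩
  · have h5 := h1.neg
    refine h5.congr isOpen_univ ?_
    intro v _
    simp
  · intro v
    have h5 := h2 v
    simp only at h5 ⊢
    linarith
  · intro v
    have h5 := h3 v
    rwa [abs_neg] at h5
  · intro κ hκ
    have h5 := h4 κ hκ
    simp only [SumB, SumE, SumH, List.map_cons, List.map_nil, List.sum_cons, List.sum_nil, add_zero,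
      zero_add, zero_sub] at h5
    have h6 : ∫ v : ℝ, rexp (-(κ * L * cosh v)) * -(1 / 2 * Cs M (π / 2) - 1 / 2 * KKf (π / M) (2 * v))
        = -∫ v : ℝ, rexp (-(κ * L * cosh v)) * (1 / 2 * Cs M (π / 2) - 1 / 2 * KKf (π / M) (2 * v)) := by
      rw [← integral_neg]
      refine integral_congr_ae (Filter.Eventually.of_forall fun v => ?_)
      simp only [mul_neg]
    rw [h6] at h5
    simp only
    linarith

/-- REG -/
theorem reg (hB : RegBStmt) : RegStmt := by
  intro L p hL hK ho
  obtain ⟨x, y⟩ := p
  obtain ⟨hx0, hx1, hy0, hy1, hxy⟩ := hK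
  simp only at hx0 hx1 hy0 hy1 hxy
  have hpi := Real.pi_pos
  show Four L (fun v => dB v (x, y)) (gE L x y)
  rcases lt_trichotomy x (π / 2) with hx | hx | hx
  · -- x acute
    have hmax : max x y = y := max_eq_right (by linarith)
    have hmin : min x y = x := min_eq_left (by linarith)
    have hom : om (x, y) = 1 := by
      unfold om
      rw [if_neg ho]
      simp only
      rw [hmin, if_neg hx.ne]
    have h := keyB hB hL hx0 hx hy1 (by linarith : π < y + x)
    have e1 : (fun v => dB v (x, y)) = fun v => Cs y x - KKf (π / y) (2 * v) := by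
      funext v
      simp only [dB, ct, hom, hmax, hmin, one_mul]
    have e2 : gE L x y = germB (L / 2) y (π / 2 - x) := by
      funext κ
      unfold gE
      rw [if_pos hx]
    rw [e1, e2]
    exact h
  · -- x right
    subst hx
    have hy : π / 2 < y := by linarith
    have hmax : max (π / 2) y = y := max_eq_right hy.le
    have hmin : min (π / 2) y = π / 2 := min_eq_left hy.le
    have hom : om (π / 2, y) = 1 / 2 := by
      unfold om
      rw [if_neg ho]
      simp only
      rw [hmin, if_pos rfl]
    have h := keyH hB hL hy hy1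
    have e1 : (fun v => dB v (π / 2, y))
        = fun v => 1 / 2 * Cs y (π / 2) - 1 / 2 * KKf (π / y) (2 * v) := by
      funext v
      simp only [dB, ct, hom, hmax, hmin]
    have e2 : gE L (π / 2) y = fun κ => 1 / 2 * germB (L / 2) y 0 κ := by
      funext κ
      unfold gE
      rw [if_neg (lt_irrefl _), if_neg (not_lt.mpr hy.le), if_pos rfl]
    rw [e1, e2]
    exact h
  · -- x obtuse
    have hy : ¬ π / 2 < y := fun h => ho ⟨hx, h⟩
    have hmax : max x y = x := max_eq_left (by linarith)
    have hmin : min x y = y := min_eq_right (by linarith)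
    rcases lt_or_eq_of_le (not_lt.mp hy) with hy2 | hy2
    · have hom : om (x, y) = 1 := by
        unfold om
        rw [if_neg ho]
        simp only
        rw [hmin, if_neg hy2.ne]
      have h := keyB hB hL hy0 hy2 hx1 hxy
      have e1 : (fun v => dB v (x, y)) = fun v => Cs x y - KKf (π / x) (2 * v) := by
        funext v
        simp only [dB, ct, hom, hmax, hmin, one_mul]
      have e2 : gE L x y = germB (L / 2) x (π / 2 - y) := by
        funext κ
        unfold gE
        rw [if_neg (not_lt.mpr hx.le), if_pos hy2]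
      rw [e1, e2]
      exact h
    · subst hy2
      have hom : om (x, π / 2) = 1 / 2 := by
        unfold om
        rw [if_neg ho]
        simp only
        rw [hmin, if_pos rfl]
      have h := keyH hB hL hx hx1
      have e1 : (fun v => dB v (x, π / 2))
          = fun v => 1 / 2 * Cs x (π / 2) - 1 / 2 * KKf (π / x) (2 * v) := by
        funext v
        simp only [dB, ct, hom, hmax, hmin]
      have e2 : gE L x (π / 2) = fun κ => 1 / 2 * germB (L / 2) x 0 κ := by
        funext κ
        unfold gE
        rw [if_neg (not_lt.mpr hx.le), if_neg (lt_irrefl _), if_neg hx.ne', if_pos rfl]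
      rw [e1, e2]
      exact h

end Pool.Agent.QUD.H82
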